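import Pool.Agent.H67.AG.T7
import Pool.Agent.H40.AG.Base

/-!
ABSOLUTE GAP (`MP_c59857_nt`): the row CB1 (the computation in the descent).
-/

set_option autoImplicit false

open MeasureTheory ProbabilityTheory Filter Topology Finset
open scoped Nat ENNReal

namespace Pool.Agent.H24.AG

open Pool.Agent.H67.AG
open Pool.Agent.H40.AG (QQ dg inv_le inv_rt rt_le set_inv_iff av_meas av_bdd bint T_PNL T_PXL
  T_PXT T_PXF T_MEM T_QQT)

section gen

variable {Ω : Type} [mΩ : MeasurableSpace Ω] {k : ℕ}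

theorem dl_m {y y' : Fin k → Ω → ℝ} (hy : Tup y) (hy' : Tup y') (i : Fin k) :
    Measurable (dl y y' i) := by
  unfold dl
  exact Measurable.ite (measurableSet_eq_fun (hy.1 i) (hy'.1 i)) measurable_const measurable_const

omit mΩ in
theorem dl_b (y y' : Fin k → Ω → ℝ) (i : Fin k) (ω : Ω) : |dl y y' i ω| ≤ 1 := by
  unfold dl
  split_ifs <;> simp

theorem dl_i {P : Measure Ω} [IsProbabilityMeasure P] {y y' : Fin k → Ω → ℝ} (hy : Tup y)
    (hy' : Tup y') (i : Fin k) : Integrable (dl y y' i) P :=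
  bint (dl_m hy hy' i) ⟨1, dl_b y y' i⟩

end gen

section gen2

variable {Ω : Type} {k : ℕ}

theorem mis_set (m : MeasurableSpace Ω) [mΩ : MeasurableSpace Ω] {P : Measure Ω}
    [IsProbabilityMeasure P] (hm : m ≤ mΩ)
    {y y' : Fin k → Ω → ℝ} (hy : Tup y) (hy' : Tup y') {A : Set Ω}
    (hA : MeasurableSet[m] A) :
    ∫ ω in A, Mis P m y y' ω ∂P = ∑ i, P.real (A ∩ {ω | y i ω ≠ y' i ω}) := by
  unfold Mis
  rw [integral_finsetSum _ (fun i _ => integrable_condExp.integrableOn)]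
  refine Finset.sum_congr rfl fun i _ => ?_
  rw [setIntegral_condExp hm (dl_i hy hy' i) hA]
  have hS : MeasurableSet {ω | y i ω ≠ y' i ω} :=
    (measurableSet_eq_fun (hy.1 i) (hy'.1 i)).compl
  have h1 : dl y y' i = Set.indicator {ω | y i ω ≠ y' i ω} (fun _ => (1 : ℝ)) := by
    funext ω
    by_cases h : y i ω = y' i ω
    · simp [dl, h]
    · simp [dl, h]
  rw [h1, setIntegral_indicator hS]
  simp

theorem mis_markov (m : MeasurableSpace Ω) [mΩ : MeasurableSpace Ω] {P : Measure Ω}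
    [IsProbabilityMeasure P] (hm : m ≤ mΩ)
    {y y' : Fin k → Ω → ℝ} (hy : Tup y) (hy' : Tup y') {A : Set Ω}
    (hA : MeasurableSet[m] A)
    (hnn : ∀ᵐ ω ∂P, 0 ≤ Mis P m y y' ω) (t : ℝ) :
    t * P.real (A ∩ {ω | t < Mis P m y y' ω}) ≤ ∑ i, P.real (A ∩ {ω | y i ω ≠ y' i ω}) := by
  rw [← mis_set m hm hy hy' hA]
  have hM : Measurable (Mis P m y y') := by
    unfold Mis
    exact Finset.measurable_sum _ fun i _ => (stronglyMeasurable_condExp.mono hm).measurable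
  have hI : Integrable (Mis P m y y') P := by
    unfold Mis
    exact integrable_finsetSum _ fun i _ => integrable_condExp
  have hS : MeasurableSet (A ∩ {ω | t < Mis P m y y' ω}) :=
    (hm _ hA).inter (measurableSet_lt measurable_const hM)
  calc t * P.real (A ∩ {ω | t < Mis P m y y' ω})
      = ∫ _ω in A ∩ {ω | t < Mis P m y y' ω}, t ∂P := by
        rw [setIntegral_const, smul_eq_mul, mul_comm]
    _ ≤ ∫ ω in A ∩ {ω | t < Mis P m y y' ω}, Mis P m y y' ω ∂P := by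
        refine setIntegral_mono_on (integrable_const _).integrableOn hI.integrableOn hS ?_
        intro ω hω
        exact le_of_lt hω.2
    _ ≤ ∫ ω in A, Mis P m y y' ω ∂P := by
        refine setIntegral_mono_set hI.integrableOn (ae_restrict_of_ae hnn) ?_
        exact LE.le.eventuallyLE Set.inter_subset_left

end gen2

section tx

variable {X : Type} [mX : MeasurableSpace X]

theorem TX_it11 (T : X ≃ᵐ X) (n l : ℕ) (q : XX X n) : ((TX T n)^[l] q).1.1 = T^[l] q.1.1 := by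
  induction l generalizing q with
  | zero => rfl
  | succ l ih => rw [Function.iterate_succ_apply, ih, Function.iterate_succ_apply]; rfl

theorem TX_inv (T : X ≃ᵐ X) (n W : ℕ) {B : Set X} (hB : MeasurableSet[Inv T W] B) :
    MeasurableSet[Inv (TX T n) W] {q : XX X n | q.1.1 ∈ B} := by
  rw [set_inv_iff] at hB ⊢
  refine ⟨(measurable_fst.comp measurable_fst) hB.1, fun q => ?_⟩
  change ((TX T n)^[W] q).1.1 ∈ B ↔ q.1.1 ∈ B
  rw [TX_it11]
  exact hB.2 _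

end tx

section ctx

variable (c : CtxE)

theorem tup_Dt : Tup c.Dt :=
  ⟨fun _ => c.Dm.comp (c.T.measurable.iterate _), fun _ _ => c.Dv _⟩

theorem tup_D1 : Tup c.D1 := ⟨fun i => ((tup_Dt c).1 i).comp measurable_fst, fun _ _ => c.Dv _⟩

theorem tup_D2 : Tup c.D2 := ⟨fun i => ((tup_Dt c).1 i).comp measurable_snd, fun _ _ => c.Dv _⟩

theorem tup_yX (n : ℕ) (b : Fin (n + 1)) : Tup (c.yX n b) :=
  ⟨fun i => ((tup_Dt c).1 i).comp
    ((measurable_pi_apply b).comp (measurable_fst.comp measurable_snd)), fun _ _ => c.Dv _⟩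

theorem tup_yL (n : ℕ) : Tup (c.yL n) :=
  ⟨fun i => ((tup_Dt c).1 i).comp (measurable_snd.comp measurable_snd), fun _ _ => c.Dv _⟩

theorem tup_yS (W L n : ℕ) (B : Set c.X) (hs : Measurable (c.sel W L n B)) :
    Tup (c.yS W L n B) := by
  refine ⟨fun i => ?_, fun _ _ => c.Dv _⟩
  have he : (fun q : XX c.X (n + 1) => c.Dt i (q.2.1 (c.sel W L n B q))) =
      fun q => ∑ b : Fin (n + 1), if c.sel W L n B q = b then c.yX n b i q else 0 := by
    funext q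
    simp [CtxE.yX]
  change Measurable (fun q : XX c.X (n + 1) => c.Dt i (q.2.1 (c.sel W L n B q)))
  rw [he]
  refine Finset.measurable_sum _ fun b _ => ?_
  exact Measurable.ite (hs (measurableSet_singleton b)) ((tup_yX c n b).1 i) measurable_const

theorem dL_m (W L : ℕ) : Measurable (c.dL W L) := by
  unfold CtxE.dL
  exact Finset.measurable_sum _ fun i _ => av_meas _ _ _ (dl_m (tup_D1 c) (tup_D2 c) i)

theorem MR_m (Z : SA c.X) : Measurable (c.MR Z) := by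
  unfold CtxE.MR Mis
  exact Finset.measurable_sum _ fun i _ => (stronglyMeasurable_condExp.mono (rt_le _)).measurable

theorem MR_i (Z : SA c.X) : Integrable (c.MR Z) (JJ c.μ Z) := by
  unfold CtxE.MR Mis
  exact integrable_finsetSum _ fun i _ => integrable_condExp

end ctx

/-- the numbers -/
theorem cb1_num (k n : ℕ) (u θ bg p ms s : ℝ) (hu : 0 < u) (hθ : 0 ≤ θ)
    (hθs : θ * (10 ^ 6 * ((n : ℝ) + 1) ^ 2 * ((k : ℝ) + 1) ^ 2) ≤ u)
    (hbg : bg ≤ u / (10 ^ 6 * ((k : ℝ) + 1) ^ 2)) (hp : p ≤ u + θ)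
    (hs : s ≤ ((n : ℝ) + 1) ^ 2 * θ)
    (hms : ms ≤ 3 * m1 * p + s + ((k : ℝ) + 32 * (k : ℝ) ^ 2) * bg) :
    ms ≤ 25 / 10000 * u ∧ ((n : ℝ) + 1) ^ 2 * θ ≤ u / 10 ^ 6 ∧ θ ≤ u / 10 ^ 6 := by
  have hn : (1 : ℝ) ≤ ((n : ℝ) + 1) ^ 2 := by
    have : (0 : ℝ) ≤ n := Nat.cast_nonneg n
    nlinarith
  have hk0 : (0 : ℝ) ≤ k := Nat.cast_nonneg k
  have hk : (1 : ℝ) ≤ ((k : ℝ) + 1) ^ 2 := by nlinarith
  have hnθ : 0 ≤ ((n : ℝ) + 1) ^ 2 * θ := by positivity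
  have h1 : ((n : ℝ) + 1) ^ 2 * θ ≤ u / 10 ^ 6 := by
    rw [le_div_iff₀ (by norm_num)]
    calc ((n : ℝ) + 1) ^ 2 * θ * 10 ^ 6 ≤ (((n : ℝ) + 1) ^ 2 * θ) * 10 ^ 6 * ((k : ℝ) + 1) ^ 2 :=
          le_mul_of_one_le_right (by positivity) hk
      _ = θ * (10 ^ 6 * ((n : ℝ) + 1) ^ 2 * ((k : ℝ) + 1) ^ 2) := by ring
      _ ≤ u := hθs
  have h2 : θ ≤ u / 10 ^ 6 := (le_mul_of_one_le_left hθ hn).trans h1
  have h3 : ((k : ℝ) + 32 * (k : ℝ) ^ 2) * bg ≤ 33 * (u / 10 ^ 6) := by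
    have h4 : ((k : ℝ) + 32 * (k : ℝ) ^ 2) * bg ≤
        ((k : ℝ) + 32 * (k : ℝ) ^ 2) * (u / (10 ^ 6 * ((k : ℝ) + 1) ^ 2)) :=
      mul_le_mul_of_nonneg_left hbg (by positivity)
    refine h4.trans ?_
    rw [mul_div_assoc', mul_div_assoc', div_le_div_iff₀ (by positivity) (by norm_num)]
    have h5 : (k : ℝ) + 32 * (k : ℝ) ^ 2 ≤ 33 * ((k : ℝ) + 1) ^ 2 := by nlinarith
    have h6 : ((k : ℝ) + 32 * (k : ℝ) ^ 2) * (u * 10 ^ 6) ≤
        (33 * ((k : ℝ) + 1) ^ 2) * (u * 10 ^ 6) :=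
      mul_le_mul_of_nonneg_right h5 (by positivity)
    calc ((k : ℝ) + 32 * (k : ℝ) ^ 2) * u * 10 ^ 6
        = ((k : ℝ) + 32 * (k : ℝ) ^ 2) * (u * 10 ^ 6) := by ring
      _ ≤ _ := h6
      _ = _ := by ring
  refine ⟨?_, h1, h2⟩
  have hm1 : m1 = 81 / 100000 := rfl
  rw [hm1] at hms
  have h7 : 3 * (81 / 100000 : ℝ) * p ≤ 3 * (81 / 100000) * (u + θ) := by
    refine mul_le_mul_of_nonneg_left hp (by norm_num)
  linarith

theorem pf_CB1 (hnx : T_NXI) (htri : T_TRI) (hmn : T_MN) (hms : T_MSM) (hslv : T_SLV)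
    (hlmd : T_LMD) (hlmf : T_LMF) (hpnl : T_PNL) (hpxl : T_PXL) (hpxt : T_PXT) (hpxf : T_PXF)
    (hmem : T_MEM) (hqqt : T_QQT) : T_CB1 := by
  rintro c Z hZ ⟨n, w, L, X1, X1', R, θ, hw, hL, hθ, ⟨h, hLh⟩, hRp, hX1, hX1g, hX1pos, hX1', hsd,
    hRT, hRa, hR1, hR2, hRx, hLam, hdL, hBG, hθs, hlast⟩
  haveI := hRp
  have hT : MeasurePreserving c.T c.μ c.μ := c.erg.toMeasurePreserving
  have hW : 0 < c.W w := Nat.mul_pos c.Qpos (Nat.factorial_pos w)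
  refine ⟨w, X1, X1', R, θ, hRp, hX1, hX1g, hX1', hsd, hRT, hRa, hR1, hR2, hRx, ?_⟩
  obtain ⟨hZi, hZle, hRt⟩ := hnx c.X c.μ c.T Z c.erg hZ
  obtain ⟨Z', hZ'⟩ : ∃ Z', Z' = nxt c.μ c.T Z := ⟨_, rfl⟩
  rw [← hZ'] at hdL hBG hlast hZi hZle hRt ⊢
  have hX1'Z : MeasurableSet[Z'.1] X1' := hRt _ (inv_rt c.T hW _ hX1')
  have hX1'm : MeasurableSet X1' := Z'.2 _ hX1'Z
  have hX1m : MeasurableSet X1 := rt_le c.T _ hX1
  obtain ⟨hPp, hP1, hP2, hP3, hP4, hP5⟩ := hpxl c.X c.μ Z' (n + 1) R hR1 hR2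
  obtain ⟨hN1, hN2, hN3, hN4, hN5⟩ := hpnl c.X c.μ Z' (n + 1)
  have hTX := hpxt c.X c.μ c.T Z' (n + 1) R hT hZi hR1 hR2 hRT
  obtain ⟨hF1, hF2, hF3, hF4, hF5, hF6, hF7, hF8, hF9⟩ :=
    hpxf c.X c.μ c.T Z' (n + 1) R hT hZi hR1 hR2 hRT
  obtain ⟨hQp, hQT, hQ1, hQ2⟩ := hqqt c.X c.μ c.T Z' R hT hZi hR1 hR2 hRT
  obtain ⟨hM1, hM2⟩ := (hmem c.X c.μ Z' (n + 1) X1' hX1'Z).2 R hR1 hR2
  obtain ⟨P, hP⟩ : ∃ P, P = PX c.μ Z' (n + 1) R := ⟨_, rfl⟩
  rw [← hP] at hBG hlast hPp hP1 hP2 hP4 hP5 hTX hF1 hF4 hF5 hM2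
  simp only [← hP] at hP3 hF2 hF3 hF9 hM1
  haveI := hPp
  haveI := hQp
  obtain ⟨A, hA⟩ : ∃ A, A = {q : XX c.X (n + 1) | q.1.1 ∈ X1'} := ⟨_, rfl⟩
  have hAI : MeasurableSet[Inv (TX c.T (n + 1)) (c.W w)] A := by rw [hA]; exact TX_inv _ _ _ hX1'
  have hIle := inv_le (TX c.T (n + 1)) (c.W w)
  have hAm : MeasurableSet A := hIle _ hAI
  have hPA : P.real A = c.μ.real X1' := by
    rw [hA]
    exact (hR1.comp hP1).measureReal_preimage hX1'm.nullMeasurableSet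
  have hμ := abs_le.1 ((abs_measureReal_sub_le_measureReal_symmDiff hX1m.nullMeasurableSet hX1'm.nullMeasurableSet).trans hsd)
  have hsel := (hslv c Z' X1' (c.W w) L n 0 P hTX hW hL hX1').1
  have tS := tup_yS c (c.W w) L n X1' hsel
  have tL := tup_yL c n
  have tX := fun b => tup_yX c n b
  -- the mismatch of the selected reference and the last point
  have hpair : ∀ a b : Fin (n + 1), a ≠ b →
      MeasurePreserving (fun q : XX c.X (n + 1) => (q.2.1 a, q.2.1 b)) P (JJ c.μ Z') :=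
    fun a b hab => (hN5 a b hab).comp hP2
  have hms' := hms c Z' X1' (c.W w) L n h P hTX hW hL hLh hX1' (fun a b hab =>
    (hpair a b hab).integrable_comp_of_integrable (MR_i c Z'))
  have hpi : ∑ a : Fin (n + 1), ∑ b : Fin (n + 1), (if a = b then 0 else
      ∫ q, |c.dL (c.W w) L (q.2.1 a, q.2.1 b) - c.MR Z' (q.2.1 a, q.2.1 b)| ∂P) ≤
      ((n : ℝ) + 1) ^ 2 * θ := by
    have h1 : ∀ a b : Fin (n + 1), (if a = b then 0 else
        ∫ q, |c.dL (c.W w) L (q.2.1 a, q.2.1 b) - c.MR Z' (q.2.1 a, q.2.1 b)| ∂P) ≤ θ := by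
      intro a b
      split_ifs with hab
      · exact hθ
      · have h2 : ∫ q, |c.dL (c.W w) L (q.2.1 a, q.2.1 b) - c.MR Z' (q.2.1 a, q.2.1 b)| ∂P =
            ∫ q, |c.dL (c.W w) L q - c.MR Z' q| ∂(JJ c.μ Z') := by
          rw [← (hpair a b hab).map_eq, integral_map (hpair a b hab).aemeasurable]
          exact ((dL_m c (c.W w) L).sub (MR_m c Z')).abs.aestronglyMeasurable
        rw [h2]
        exact hdL
    calc _ ≤ ∑ _a : Fin (n + 1), ∑ _b : Fin (n + 1), θ :=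
          Finset.sum_le_sum fun a _ => Finset.sum_le_sum fun b _ => h1 a b
      _ = ((n : ℝ) + 1) ^ 2 * θ := by
          simp only [Finset.sum_const, Finset.card_univ, Fintype.card_fin, nsmul_eq_mul]
          push_cast
          ring
  obtain ⟨ms, hmse⟩ : ∃ ms, ms = ∑ i, P.real (A ∩ {q | c.yS (c.W w) L n X1' i q ≠ c.yL n i q}) :=
    ⟨_, rfl⟩
  have hms2 : ms ≤ 3 * m1 * P.real A + (∑ a : Fin (n + 1), ∑ b : Fin (n + 1), (if a = b then 0 else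
      ∫ q, |c.dL (c.W w) L (q.2.1 a, q.2.1 b) - c.MR Z' (q.2.1 a, q.2.1 b)| ∂P)) +
      ((c.k : ℝ) + 32 * (c.k : ℝ) ^ 2) * P.real (c.BG Z' (c.W w) L n X1') := by
    rw [hmse, hA]
    exact hms'
  obtain ⟨hn1, hn2, hn3⟩ := cb1_num c.k n (c.μ.real X1) θ _ (P.real A) ms _ hX1pos hθ hθs hBG
    (by rw [hPA]; linarith) hpi hms2
  -- the asymptotic error of the selected reference
  have hl1 := hlmd (XX c.X (n + 1)) P (TX c.T (n + 1)) c.k c.β c.σ (c.W w) (c.U w)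
    (c.yS (c.W w) L n X1') (c.yL n) A hTX hW (c.hU w) tS tL hAI
  rw [← hmse] at hl1
  have hl2 := hlmf (XX c.X (n + 1)) c.X P c.μ (TX c.T (n + 1)) c.T (fun q => q.2.2) c.k c.β c.σ
    (c.W w) (c.U w) c.Dt A X1' hF4 (tup_Dt c) hAm hX1'm
  have hl3 : P.real (A \ (fun q : XX c.X (n + 1) => q.2.2) ⁻¹' X1') ≤ θ := by
    have h1 : P.real (A \ (fun q : XX c.X (n + 1) => q.2.2) ⁻¹' X1') =
        P.real ((fun q : XX c.X (n + 1) => q.1) ⁻¹' {r | r.1 ∈ X1' ∧ r.2 ∉ X1'}) := by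
      refine measureReal_congr ?_
      filter_upwards [hM2] with q hq
      have h2 : (q ∈ A \ (fun q : XX c.X (n + 1) => q.2.2) ⁻¹' X1') ↔
          (q ∈ (fun q : XX c.X (n + 1) => q.1) ⁻¹' {r | r.1 ∈ X1' ∧ r.2 ∉ X1'}) := by
        rw [hA]
        change (q.1.1 ∈ X1' ∧ q.2.2 ∉ X1') ↔ (q.1.1 ∈ X1' ∧ q.1.2 ∉ X1')
        rw [hq]
      exact propext h2
    have hm : MeasurableSet {r : c.X × c.X | r.1 ∈ X1' ∧ r.2 ∉ X1'} :=
      (measurable_fst hX1'm).inter (measurable_snd hX1'm.compl)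
    rw [h1, hP1.measureReal_preimage hm.nullMeasurableSet]
    refine (measureReal_mono ?_).trans hRx
    intro r hr
    exact fun h => hr.2 (h.1 hr.1)
  have hl4 : Lam (c.U w) (c.W w) P (TX c.T (n + 1)) c.β c.σ (c.yS (c.W w) L n X1') A ≤
      4 * κ₀ * c.μ.real X1 + 2 * θ + ms := by
    have h1 : Lam (c.U w) (c.W w) P (TX c.T (n + 1)) c.β c.σ (c.yL n) A =
        Lam (c.U w) (c.W w) P (TX c.T (n + 1)) c.β c.σ (fun i q => c.Dt i q.2.2) A := rfl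
    rw [h1] at hl1
    linarith
  -- the exceptional sets
  have hb1 : P.real (A ∩ {q | ∀ b, 113 / 1000 < Mis P (Inv (TX c.T (n + 1)) (c.W w))
      (c.yS (c.W w) L n X1') (c.yX n b) q}) ≤ 7 / 100 * c.μ.real X1 := by
    rw [← hA] at hlast
    have hκ : κ₀ = 1 / 10000 := rfl
    rw [hκ] at hl4
    refine hlast.trans ?_
    linarith
  have hnn : ∀ᵐ q ∂P, 0 ≤ Mis P (Inv (TX c.T (n + 1)) (c.W w)) (c.yS (c.W w) L n X1')
      (c.yL n) q := by
    filter_upwards [(htri (XX c.X (n + 1)) (Inv (TX c.T (n + 1)) (c.W w)) P c.k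
      (c.yS (c.W w) L n X1') (c.yL n) (c.yL n) hIle tS tL tL).2.2] with q hq using hq.1
  have hb2 := mis_markov (Inv (TX c.T (n + 1)) (c.W w)) hIle tS tL hAI hnn (1 / 20)
  rw [← hmse] at hb2
  -- the good set
  have hsub : A ⊆ (A ∩ {q | (∃ b, Mis P (Inv (TX c.T (n + 1)) (c.W w))
      (c.yS (c.W w) L n X1') (c.yX n b) q ≤ 113 / 1000) ∧
      Mis P (Inv (TX c.T (n + 1)) (c.W w)) (c.yS (c.W w) L n X1') (c.yL n) q ≤ 1 / 20}) ∪
      ((A ∩ {q | ∀ b, 113 / 1000 < Mis P (Inv (TX c.T (n + 1)) (c.W w))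
        (c.yS (c.W w) L n X1') (c.yX n b) q}) ∪
      (A ∩ {q | 1 / 20 < Mis P (Inv (TX c.T (n + 1)) (c.W w)) (c.yS (c.W w) L n X1')
        (c.yL n) q})) := by
    intro q hq
    by_cases h1 : ∃ b, Mis P (Inv (TX c.T (n + 1)) (c.W w))
      (c.yS (c.W w) L n X1') (c.yX n b) q ≤ 113 / 1000
    · by_cases h2 : Mis P (Inv (TX c.T (n + 1)) (c.W w)) (c.yS (c.W w) L n X1') (c.yL n) q ≤ 1 / 20
      · exact Or.inl ⟨hq, h1, h2⟩
      · exact Or.inr (Or.inr ⟨hq, not_le.1 h2⟩)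
    · refine Or.inr (Or.inl ⟨hq, fun b => ?_⟩)
      exact not_le.1 fun h2 => h1 ⟨b, h2⟩
  have hG1 := (measureReal_mono (μ := P) hsub).trans ((measureReal_union_le _ _).trans
    (add_le_add le_rfl (measureReal_union_le _ _)))
  have hG2 : P.real (A ∩ {q | (∃ b, Mis P (Inv (TX c.T (n + 1)) (c.W w))
      (c.yS (c.W w) L n X1') (c.yX n b) q ≤ 113 / 1000) ∧
      Mis P (Inv (TX c.T (n + 1)) (c.W w)) (c.yS (c.W w) L n X1') (c.yL n) q ≤ 1 / 20}) ≤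
      ∑ b, P.real (A ∩ {q | Mis P (Inv (TX c.T (n + 1)) (c.W w)) (c.yX n b) (c.yL n) q ≤
        17 / 100}) := by
    refine le_trans ?_ (measureReal_iUnion_fintype_le _)
    refine ENNReal.toReal_mono (measure_ne_top _ _) (measure_mono_ae ?_)
    have h1 := fun b => htri (XX c.X (n + 1)) (Inv (TX c.T (n + 1)) (c.W w)) P c.k
      (c.yX n b) (c.yS (c.W w) L n X1') (c.yL n) hIle (tX b) tS tL
    filter_upwards [ae_all_iff.2 fun b => (h1 b).1, ae_all_iff.2 fun b => (h1 b).2.1]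
      with q hq1 hq2 hq
    obtain ⟨hqA, ⟨b, hb⟩, hq3⟩ := hq
    refine Set.mem_iUnion.2 ⟨b, hqA, ?_⟩
    change Mis P (Inv (TX c.T (n + 1)) (c.W w)) (c.yX n b) (c.yL n) q ≤ 17 / 100
    have h4 := hq1 b
    have h5 := hq2 b
    linarith
  -- a good reference
  obtain ⟨b, hb⟩ : ∃ b, 8 * θ < P.real (A ∩ {q | Mis P (Inv (TX c.T (n + 1)) (c.W w))
      (c.yX n b) (c.yL n) q ≤ 17 / 100}) := by
    by_contra hno
    push Not at hno
    have h1 : ∑ b, P.real (A ∩ {q | Mis P (Inv (TX c.T (n + 1)) (c.W w)) (c.yX n b) (c.yL n) q ≤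
        17 / 100}) ≤ ∑ _b : Fin (n + 1), 8 * θ := Finset.sum_le_sum fun b _ => hno b
    rw [Finset.sum_const, Finset.card_univ, Fintype.card_fin, nsmul_eq_mul] at h1
    have h2 : ((n + 1 : ℕ) : ℝ) * (8 * θ) ≤ 8 * (((n : ℝ) + 1) ^ 2 * θ) := by
      push_cast
      have hn0 : (0 : ℝ) ≤ n := Nat.cast_nonneg n
      nlinarith [mul_nonneg hn0 hθ, mul_nonneg (mul_nonneg hn0 hn0) hθ]
    linarith
  refine hb.trans_le (le_of_eq ?_)
  have hg := hF2 b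
  have hmn' := (hmn (XX c.X (n + 1)) (c.X × c.X) P (QQ c.μ Z' R) (TX c.T (n + 1)) (TT c.T)
    (fun q => (q.2.1 b, q.2.2)) c.k c.D1 c.D2 hTX hQT hg (tup_D1 c) (tup_D2 c)).1 (c.W w)
  have hSm : MeasurableSet {q : c.X × c.X | q.1 ∈ X1' ∧
      Mis (QQ c.μ Z' R) (Inv (TT c.T) (c.W w)) c.D1 c.D2 q ≤ 17 / 100} := by
    have hMm : Measurable (Mis (QQ c.μ Z' R) (Inv (TT c.T) (c.W w)) c.D1 c.D2) := by
      unfold Mis
      exact Finset.measurable_sum _ fun i _ =>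
        (stronglyMeasurable_condExp.mono (inv_le _ _)).measurable
    have h2 : MeasurableSet {q : c.X × c.X |
        Mis (QQ c.μ Z' R) (Inv (TT c.T) (c.W w)) c.D1 c.D2 q ≤ 17 / 100} :=
      measurableSet_le hMm measurable_const
    exact (measurable_fst hX1'm).inter h2
  rw [← hg.1.measureReal_preimage hSm.nullMeasurableSet]
  refine measureReal_congr ?_
  filter_upwards [hmn', hM1 b] with q hq1 hq2
  refine propext ?_
  change (q ∈ A ∧ Mis P (Inv (TX c.T (n + 1)) (c.W w)) (c.yX n b) (c.yL n) q ≤ 17 / 100) ↔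
    (q.2.1 b ∈ X1' ∧ Mis (QQ c.μ Z' R) (Inv (TT c.T) (c.W w)) c.D1 c.D2 (q.2.1 b, q.2.2) ≤
      17 / 100)
  have h1 : Mis P (Inv (TX c.T (n + 1)) (c.W w)) (c.yX n b) (c.yL n) q =
      Mis (QQ c.μ Z' R) (Inv (TT c.T) (c.W w)) c.D1 c.D2 (q.2.1 b, q.2.2) := hq1
  rw [h1, hA]
  change (q.1.1 ∈ X1' ∧ _) ↔ _
  rw [hq2]

end Pool.Agent.H24.AG
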