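import Pool.Agent.H24.AG.Targets

/-!
ABSOLUTE GAP (`MP_c59857_nt`): the row P3 (the step of the tower which controls the averages over
primes).
-/

set_option autoImplicit false

open MeasureTheory ProbabilityTheory Filter Topology Finset
open scoped Nat

namespace Pool.Agent.H24.AG

open Pool.Agent.H24.T2 (Pset box cub AA pset_eq)
open Pool.Agent.H67.AG (Inv Rt Av SA kap JJ nxt tow InvZ avgP)

/-- the sum over the primes as a sum over the positions -/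
theorem sum_AA {W m : ℕ} (hW : 0 < W) (G : ℤ → ℝ) (F : ℕ → ℝ)
    (h : ∀ p ∈ Pset W m, G (((p - 1) / W : ℕ) : ℤ) = F p) :
    ∑ u ∈ AA W (Pset W m), G u = ∑ p ∈ Pset W m, F p := by
  unfold AA
  rw [Finset.sum_image]
  · exact Finset.sum_congr rfl h
  · intro p hp p' hp' hpp
    have h1 := (pset_eq hW (Finset.mem_coe.1 hp)).2.2.2
    have h2 := (pset_eq hW (Finset.mem_coe.1 hp')).2.2.2
    have h3 : (p - 1) / W = (p' - 1) / W := by
      have : (((p - 1) / W : ℕ) : ℤ) = (((p' - 1) / W : ℕ) : ℤ) := hpp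
      exact_mod_cast this
    rw [← h1, ← h2, h3]

/-- the differences of the positions are small -/
theorem AA_diff {W m : ℕ} (hW : 0 < W) : ∀ u ∈ AA W (Pset W m), ∀ u' ∈ AA W (Pset W m),
    |u - u'| ≤ ((2 ^ m : ℕ) : ℤ) := by
  intro u hu u' hu'
  refine (Pool.Agent.H24.T2.AA_diam hW (Finset.Subset.refl _) u hu u' hu').trans ?_
  exact_mod_cast Nat.div_le_self _ _

/-- the arithmetic of the powers -/
theorem pow_arith (j : ℕ) (N P C s c v η : ℝ) (hN : 1 ≤ N) (hP : 0 ≤ P) (hC : 0 ≤ C) (hη : 0 ≤ η)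
    (hc : c ≤ C * N ^ j * (N * (P / N) ^ (2 ^ j)) ^ 2)
    (hv : v ≤ η * N ^ j) (hs : s ≤ (2 * N + 1) ^ (2 ^ j - 1 - j) * (√c * √v)) :
    s ≤ 3 ^ (2 ^ j - 1 - j) * √C * √η * P ^ (2 ^ j) := by
  have hN0 : 0 < N := by linarith
  have hj : j + 1 ≤ 2 ^ j := Nat.lt_two_pow_self
  have h1 : √c ≤ √C * √(N ^ j) * (N * (P / N) ^ (2 ^ j)) := by
    have h2 : √c ≤ √(C * N ^ j * (N * (P / N) ^ (2 ^ j)) ^ 2) := Real.sqrt_le_sqrt hc
    rw [Real.sqrt_mul (by positivity), Real.sqrt_mul hC, Real.sqrt_sq (by positivity)] at h2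
    exact h2
  have h3 : √v ≤ √η * √(N ^ j) := by
    rw [← Real.sqrt_mul hη]
    exact Real.sqrt_le_sqrt hv
  have h4 : √(N ^ j) * √(N ^ j) = N ^ j := Real.mul_self_sqrt (by positivity)
  have h5 : √c * √v ≤ √C * √η * (N ^ j * (N * (P / N) ^ (2 ^ j))) := by
    calc √c * √v ≤ (√C * √(N ^ j) * (N * (P / N) ^ (2 ^ j))) * (√η * √(N ^ j)) :=
          mul_le_mul h1 h3 (Real.sqrt_nonneg _) (by positivity)
      _ = √C * √η * ((√(N ^ j) * √(N ^ j)) * (N * (P / N) ^ (2 ^ j))) := by ring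
      _ = _ := by rw [h4]
  have h6 : (2 * N + 1) ^ (2 ^ j - 1 - j) ≤ 3 ^ (2 ^ j - 1 - j) * N ^ (2 ^ j - 1 - j) := by
    rw [← mul_pow]
    exact pow_le_pow_left₀ (by linarith) (by linarith) _
  have h7 : N ^ (2 ^ j - 1 - j) * (N ^ j * (N * (P / N) ^ (2 ^ j))) = P ^ (2 ^ j) := by
    have h8 : N ^ (2 ^ j - 1 - j) * (N ^ j * N) = N ^ (2 ^ j) := by
      rw [← pow_succ, ← pow_add]
      congr 1
      omega
    calc N ^ (2 ^ j - 1 - j) * (N ^ j * (N * (P / N) ^ (2 ^ j)))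
        = (N ^ (2 ^ j - 1 - j) * (N ^ j * N)) * (P / N) ^ (2 ^ j) := by ring
      _ = (N * (P / N)) ^ (2 ^ j) := by rw [h8, mul_pow]
      _ = P ^ (2 ^ j) := by rw [mul_div_cancel₀ _ hN0.ne']
  calc s ≤ (2 * N + 1) ^ (2 ^ j - 1 - j) * (√c * √v) := hs
    _ ≤ (3 ^ (2 ^ j - 1 - j) * N ^ (2 ^ j - 1 - j)) *
        (√C * √η * (N ^ j * (N * (P / N) ^ (2 ^ j)))) :=
          mul_le_mul h6 h5 (by positivity) (by positivity)
    _ = 3 ^ (2 ^ j - 1 - j) * √C * √η *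
        (N ^ (2 ^ j - 1 - j) * (N ^ j * (N * (P / N) ^ (2 ^ j)))) := by ring
    _ = _ := by rw [h7]

theorem pf_P3 (hvd : T_VVD) (hcu : T_VCU) (hav : T_VAV) : Pool.Agent.H67.AG.T_P3 := by
  intro X _ _ μ _ T k W β l f₀ ε herg hinj hW hWe hf₀ hf₀1 hce hε
  obtain ⟨j, rfl⟩ : ∃ j, k = j + 1 := ⟨k - 1, by have := l.pos; omega⟩
  rw [Nat.add_sub_cancel] at hce
  have hT : MeasurePreserving T μ μ := herg.toMeasurePreserving
  obtain ⟨e, he⟩ : ∃ e : Equiv.Perm (Fin (j + 1)), e 0 = l := ⟨Equiv.swap 0 l, by simp⟩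
  obtain ⟨b, hb⟩ : ∃ b : Fin (j + 1) → ℤ, ∀ i, b i = (W : ℤ) * β (e i) := ⟨_, fun i => rfl⟩
  have hg : ∀ i : Fin j, b 0 - b i.succ ≠ 0 := by
    intro i h0
    have h1 : b 0 = b i.succ := sub_eq_zero.1 h0
    rw [hb, hb] at h1
    have h2 : (β (e 0) : ℤ) = β (e i.succ) := mul_left_cancel₀ (by exact_mod_cast hW.ne') h1
    have h3 : β (e 0) = β (e i.succ) := by exact_mod_cast h2
    exact (Fin.succ_ne_zero i).symm (e.injective (hinj h3))
  obtain ⟨C, hC, m₁, hcu⟩ := hcu W j hW hWe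
  obtain ⟨K, hK⟩ : ∃ K : ℝ, K = 3 ^ (2 ^ j - 1 - j) * √C := ⟨_, rfl⟩
  have hK0 : 0 ≤ K := by rw [hK]; positivity
  obtain ⟨η, hη⟩ : ∃ η : ℝ, η = (ε ^ (2 ^ j) / (K + 1)) ^ 2 := ⟨_, rfl⟩
  have hη0 : 0 < η := by rw [hη]; positivity
  have hKη : K * √η ≤ ε ^ (2 ^ j) := by
    rw [hη, Real.sqrt_sq (by positivity), mul_div_assoc', div_le_iff₀ (by linarith)]
    nlinarith [pow_pos hε (2 ^ j)]
  obtain ⟨N₀, hN₀⟩ := hav X μ T herg j (fun i => b 0 - b i.succ) f₀ η hg hf₀ hf₀1 hce hη0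
  refine ⟨max m₁ N₀, fun m hm f hf hf1 hfl => ?_⟩
  obtain ⟨P, hP⟩ : ∃ P : ℝ, P = ((Pset W m).card : ℝ) := ⟨_, rfl⟩
  have hP0 : 0 ≤ P := by rw [hP]; positivity
  have hsum : ∑ u ∈ AA W (Pset W m), ∫ x, ∏ i, f (e i) (zp T (u * b i) x) ∂μ =
      ∑ p ∈ Pset W m, ∫ x, ∏ i, f i (T^[(p - 1) * β i] x) ∂μ := by
    refine sum_AA hW _ _ fun p hp => ?_
    refine integral_congr_ae (Eventually.of_forall fun x => ?_)
    change ∏ i, f (e i) (zp T ((((p - 1) / W : ℕ) : ℤ) * b i) x) =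
      ∏ i, f i (T^[(p - 1) * β i] x)
    rw [← Equiv.prod_comp e (fun i => f i (T^[(p - 1) * β i] x))]
    refine Finset.prod_congr rfl fun i _ => ?_
    have h1 := (pset_eq hW hp).2.2.2
    have h2 : (((p - 1) / W : ℕ) : ℤ) * b i = (((p - 1) * β (e i) : ℕ) : ℤ) := by
      have h3 : p - 1 = W * ((p - 1) / W) := by omega
      rw [hb, h3]
      rw [Nat.mul_div_cancel_left _ hW]
      push_cast
      ring
    rw [h2, zp_natCast]
  have hmain := hvd X μ T j (2 ^ m) b (AA W (Pset W m)) (fun i => f (e i)) hT (fun i => hf _)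
    (fun i => hf1 _) (AA_diff hW)
  simp only [he, hfl] at hmain
  rw [hsum] at hmain
  have hcs : ∑ t ∈ box j (2 ^ m), ((cub j (AA W (Pset W m)) t).card : ℝ) *
      |vv μ T j (fun i => b 0 - b i.succ) f₀ t| ≤
      √(∑ t ∈ box j (2 ^ m), ((cub j (AA W (Pset W m)) t).card : ℝ) ^ 2) *
      √(∑ t ∈ box j (2 ^ m), (vv μ T j (fun i => b 0 - b i.succ) f₀ t) ^ 2) := by
    have h1 := Real.sum_mul_le_sqrt_mul_sqrt (box j (2 ^ m))
      (fun t => ((cub j (AA W (Pset W m)) t).card : ℝ))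
      (fun t => |vv μ T j (fun i => b 0 - b i.succ) f₀ t|)
    simp only [sq_abs] at h1
    exact h1
  have h2m : N₀ ≤ 2 ^ m := (le_of_max_le_right hm).trans Nat.lt_two_pow_self.le
  have hv := hN₀ (2 ^ m) h2m
  have hc := hcu m (le_of_max_le_left hm)
  rw [← hP] at hc
  have hN1 : (1 : ℝ) ≤ 2 ^ m := one_le_pow₀ (by norm_num)
  have hv' : ∑ t ∈ box j (2 ^ m), (vv μ T j (fun i => b 0 - b i.succ) f₀ t) ^ 2 ≤
      η * (2 ^ m : ℝ) ^ j := by
    refine hv.trans (le_of_eq ?_)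
    push_cast
    rfl
  have hfin := pow_arith j (2 ^ m) P C _ _ _ η hN1 hP0 hC.le hη0.le hc hv' (by
      refine hmain.trans ?_
      have h3 : ((2 : ℝ) * ((2 ^ m : ℕ) : ℝ) + 1) = 2 * 2 ^ m + 1 := by push_cast; rfl
      rw [h3]
      exact mul_le_mul_of_nonneg_left hcs (by positivity))
  unfold avgP
  rw [← hP, abs_div, abs_of_nonneg hP0]
  rcases hP0.eq_or_lt with h0 | h0
  · rw [← h0, div_zero]; exact hε.le
  rw [div_le_iff₀ h0]
  have h5 : |∑ p ∈ Pset W m, ∫ x, ∏ i, f i (T^[(p - 1) * β i] x) ∂μ| ^ (2 ^ j) ≤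
      (ε * P) ^ (2 ^ j) := by
    refine hfin.trans ?_
    rw [mul_pow, ← hK]
    exact mul_le_mul_of_nonneg_right hKη (by positivity)
  exact le_of_pow_le_pow_left₀ (by positivity) (by positivity) h5

end Pool.Agent.H24.AG
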