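import Pool.Agent.H24.AG.Defs
import Pool.Agent.H67.AG.T1
import Pool.Agent.H67.AG.T3
import Pool.Agent.H47.VT.Targets6
import Pool.Agent.H24.Sqf.Vaughan

/-!
ABSOLUTE GAP (`MP_c59857_nt`), section 3 of `H67_gap.md`: targets.

Part 1 (V): exponential sums over primes. Part 2: spectral measures. Part 3: the tower.
-/

set_option autoImplicit false

open MeasureTheory ProbabilityTheory Filter Topology Finset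
open scoped Nat

namespace Pool.Agent.H24.AG

open Pool.Agent.H24.T2 (Pset box cub AA)
open Pool.Agent.H30.BV (cv)
open Pool.Agent.H67.AG (Inv Rt Av SA kap JJ nxt tow InvZ avgP)

/-! ### Part 1: exponential sums over primes -/

/-- VRZ: Siegel-Walfisz for the sums with the weight `log (X / n)`. -/
def T_VRZ : Prop := ∀ A B : ℕ, ∃ X₀ : ℝ, ∀ X : ℝ, X₀ ≤ X → ∀ (q : ℕ) (χ : DirichletCharacter ℂ q),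
  1 ≤ q → (q : ℝ) ≤ Real.log X ^ B → χ ≠ 1 →
  ‖∑ n ∈ Finset.Icc 1 ⌊X⌋₊, ((ArithmeticFunction.vonMangoldt n : ℝ) : ℂ) * cv χ n *
    ((Real.log (X / n) : ℝ) : ℂ)‖ ≤ X / Real.log X ^ A

/-- VPSI: Siegel-Walfisz for sharp sums. -/
def T_VPSI : Prop := ∀ A B : ℕ, ∃ X₀ : ℝ, ∀ X : ℝ, X₀ ≤ X → ∀ (q : ℕ) (χ : DirichletCharacter ℂ q),
  1 ≤ q → (q : ℝ) ≤ Real.log X ^ B → χ ≠ 1 → ∀ Y : ℕ, (Y : ℝ) ≤ X →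
  ‖ps (cv χ) Y‖ ≤ X / Real.log X ^ A

/-- VPSB: the same with the factor `e(θ n)`, `θ` small. -/
def T_VPSB : Prop := ∀ A B : ℕ, ∃ X₀ : ℝ, ∀ X : ℝ, X₀ ≤ X → ∀ (q : ℕ) (χ : DirichletCharacter ℂ q),
  1 ≤ q → (q : ℝ) ≤ Real.log X ^ B → χ ≠ 1 → ∀ θ : ℝ, |θ| * X ≤ Real.log X ^ B →
  ∀ Y : ℕ, (Y : ℝ) ≤ X → ‖ps (fun n => cv χ n * ee (θ * n)) Y‖ ≤ X / Real.log X ^ A

/-- VRM: Ramanujan sums. -/
def T_VRM : Prop := ∀ (q : ℕ) (a : ℤ), 1 ≤ q → IsCoprime a (q : ℤ) →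
  ‖∑ b ∈ (Finset.range q).filter (fun b => b.Coprime q), ee ((a : ℝ) * b / q)‖ ≤ 1

/-- VCS: the sum over a residue class in terms of the characters. -/
def T_VCS : Prop := ∀ (q b : ℕ) (g : ℕ → ℂ) (Y : ℕ) (M : ℝ), 1 ≤ q → b.Coprime q → 0 ≤ M →
  (∀ χ : DirichletCharacter ℂ q, χ ≠ 1 → ‖ps (fun n => cv χ n * g n) Y‖ ≤ M) →
  ‖ps (fun n => if n ≡ b [MOD q] then g n else 0) Y -
    (1 / (q.totient : ℂ)) * ps (fun n => if n.Coprime q then g n else 0) Y‖ ≤ M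

/-- VMJ: major arcs. -/
def T_VMJ : Prop := ∀ (ε : ℝ) (B : ℕ), 0 < ε → ∃ (Q₀ : ℕ) (X₀ : ℝ), ∀ X : ℝ, X₀ ≤ X →
  ∀ (q : ℕ) (a : ℤ) (θ : ℝ), Q₀ ≤ q → 1 ≤ q → (q : ℝ) ≤ Real.log X ^ B → IsCoprime a (q : ℤ) →
  |θ| * X ≤ Real.log X ^ B → ∀ Y : ℕ, (Y : ℝ) ≤ X →
  ‖ps (fun n => ee (((a : ℝ) / q + θ) * n)) Y‖ ≤ ε * X

/-- VGE: geometric sums. -/
def T_VGE : Prop := ∀ (x M : ℝ) (a b : ℕ), 0 < M → ((b : ℝ) - a ≤ M) →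
  ‖∑ n ∈ Finset.Ioc a b, ee (x * n)‖ ≤ mn M x

/-- VSP: the sum of `min (M, 1 / (2 ‖θ d‖))` over `d ≤ D`. -/
def T_VSP : Prop := ∃ C : ℝ, 0 < C ∧ ∀ (θ M : ℝ) (q : ℕ) (a : ℤ) (D : ℕ), 1 ≤ q →
  IsCoprime a (q : ℤ) → |θ - a / q| ≤ 1 / (q : ℝ) ^ 2 → 1 ≤ M →
  ∑ d ∈ Finset.Ioc 0 D, mn M (θ * d) ≤ C * ((D : ℝ) / q + 1) * (M + q * Real.log (2 * q))

/-- VS2: the sum of `min (X / d, 1 / (2 ‖θ d‖))` over `d ≤ D`. -/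
def T_VS2 : Prop := ∃ C : ℝ, 0 < C ∧ ∀ (θ X : ℝ) (q : ℕ) (a : ℤ) (D : ℕ), 1 ≤ q →
  IsCoprime a (q : ℤ) → |θ - a / q| ≤ 1 / (q : ℝ) ^ 2 → 1 ≤ X → (D : ℝ) ≤ X →
  ∑ d ∈ Finset.Ioc 0 D, mn (X / d) (θ * d) ≤
    C * (X / q + D + q) * Real.log (2 * q * X) ^ 2

/-- VBL: bilinear blocks. -/
def T_VBL : Prop := ∃ C : ℝ, 0 < C ∧ ∀ (θ : ℝ) (q : ℕ) (a : ℤ) (U M P R X : ℕ), 1 ≤ q →
  IsCoprime a (q : ℤ) → |θ - a / q| ≤ 1 / (q : ℝ) ^ 2 → 1 ≤ U → 1 ≤ M → M ≤ X → q ≤ X →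
  P ≤ R → R ≤ X → 2 ≤ X →
  ‖∑ m ∈ Finset.Ioc M (2 * M), (((ArithmeticFunction.vonMangoldt -
      Pool.Agent.H24.Sqf.trunc U ArithmeticFunction.vonMangoldt) m : ℝ) : ℂ) *
    ∑ l ∈ Finset.Ioc (P / m) (R / m), ((Pool.Agent.H24.Sqf.beta U l : ℝ) : ℂ) *
      ee (θ * (m * l : ℕ))‖ ^ 2 ≤
    C * X * Real.log (2 * X) ^ 6 * (M + (X : ℝ) / q + (X : ℝ) / M + q)

/-- VVG: the theorem of Vinogradov. -/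
def T_VVG : Prop := ∃ C : ℝ, 0 < C ∧ ∀ (θ : ℝ) (q : ℕ) (a : ℤ) (X Y : ℕ), 1 ≤ q →
  IsCoprime a (q : ℤ) → |θ - a / q| ≤ 1 / (q : ℝ) ^ 2 → q ≤ X → 2 ≤ X → Y ≤ X →
  ‖ps (fun n => ee (θ * n)) Y‖ ≤
    C * ((X : ℝ) / √(q : ℝ) + (X : ℝ) ^ (4 / 5 : ℝ) + √((X : ℝ) * q)) * Real.log (2 * X) ^ 4

/-- VIR: irrational frequencies. -/
def T_VIR : Prop := ∀ θ : ℝ, Irrational θ → ∀ ε : ℝ, 0 < ε → ∃ X₀ : ℕ, ∀ X : ℕ, X₀ ≤ X →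
  ∀ Y : ℕ, Y ≤ X → ‖ps (fun n => ee (θ * n)) Y‖ ≤ ε * X

/-- VPR: irrational frequencies, primes. -/
def T_VPR : Prop := ∀ θ : ℝ, Irrational θ → ∀ ε : ℝ, 0 < ε → ∃ m₀ : ℕ, ∀ m : ℕ, m₀ ≤ m →
  ‖∑ p ∈ (Finset.Ioc (2 ^ m) (2 ^ (m + 1))).filter Nat.Prime, ee (θ * p)‖ ≤ ε * 2 ^ m / m

/-- VEC: the residue classes contain the same number of primes. -/
def T_VEC : Prop := ∀ (W b b' : ℕ) (ε : ℝ), 0 < W → b.Coprime W → b'.Coprime W → 0 < ε →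
  ∃ m₀ : ℕ, ∀ m : ℕ, m₀ ≤ m → |((Pc W b m).card : ℝ) - (Pc W b' m).card| ≤ ε * 2 ^ m / m

/-- VDY: primes in dyadic intervals. -/
def T_VDY : Prop := ∃ c : ℝ, 0 < c ∧ ∃ m₀ : ℕ, ∀ m : ℕ, m₀ ≤ m →
  c * 2 ^ m / m ≤ (((Finset.Ioc (2 ^ m) (2 ^ (m + 1))).filter Nat.Prime).card : ℝ)

/-- VCT: the number of primes `≡ 1 (mod W)`, lower bound. -/
def T_VCT : Prop := ∀ W : ℕ, 0 < W → ∃ c : ℝ, 0 < c ∧ ∃ m₀ : ℕ, ∀ m : ℕ, m₀ ≤ m →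
  c * 2 ^ m / m ≤ ((Pset W m).card : ℝ)

/-- VRA: a rational frequency and the classes `1 + W u`. -/
def T_VRA : Prop := ∀ (w W q : ℕ) (a : ℤ), 0 < w → 0 < W → w ! ∣ W → 2 ≤ q →
  IsCoprime a (q : ℤ) →
  ‖∑ u ∈ (Finset.range q).filter (fun u => (1 + W * u).Coprime q), ee ((a : ℝ) * u / q)‖ ≤
    1 / (w : ℝ) * ((Finset.range q).filter (fun u => (1 + W * u).Coprime q)).card

/-- VVQ: rational frequencies. -/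
def T_VVQ : Prop := ∀ (w W q : ℕ) (a : ℤ), 0 < w → 0 < W → w ! ∣ W → 2 ≤ q →
  IsCoprime a (q : ℤ) → ∀ ε : ℝ, 0 < ε → ∃ m₀ : ℕ, ∀ m, m₀ ≤ m →
  ‖∑ p ∈ Pset W m, ee ((a : ℝ) / q * ((p - 1) / W : ℕ))‖ ≤ (1 / w + ε) * (Pset W m).card

/-- VVI: irrational frequencies, primes `≡ 1 (mod W)`. -/
def T_VVI : Prop := ∀ (W : ℕ) (θ : ℝ), 0 < W → Irrational θ → ∀ ε : ℝ, 0 < ε →
  ∃ m₀ : ℕ, ∀ m, m₀ ≤ m →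
  ‖∑ p ∈ Pset W m, ee (θ * ((p - 1) / W : ℕ))‖ ≤ ε * (Pset W m).card

/-! ### Part 2: spectral measures -/

/-- VHG: the theorem of Herglotz. -/
def T_VHG : Prop := ∀ r : ℤ → ℝ, PDf r → ∃ ν : Measure (Set.Ico (0 : ℝ) 1), IsFiniteMeasure ν ∧
  ∀ n : ℤ, ∫ x, ee ((x : ℝ) * n) ∂ν = (r n : ℂ)

/-! ### Part 3: the tower and the averages over primes -/

/-- VCU: the second moment of the number of prime cubes. -/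
def T_VCU : Prop := ∀ W d : ℕ, 0 < W → Even W → ∃ C : ℝ, 0 < C ∧ ∃ m₀ : ℕ, ∀ m, m₀ ≤ m →
  ∑ t ∈ box d (2 ^ m), ((cub d (AA W (Pset W m)) t).card : ℝ) ^ 2 ≤
    C * (2 ^ m : ℝ) ^ d * ((2 ^ m : ℝ) * (((Pset W m).card : ℝ) / 2 ^ m) ^ (2 ^ d)) ^ 2

/-- VVD: the inequality of van der Corput, `j` times. -/
def T_VVD : Prop := ∀ (X : Type) [MeasurableSpace X] (μ : Measure X) [IsProbabilityMeasure μ]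
  (T : X ≃ᵐ X) (j N : ℕ) (b : Fin (j + 1) → ℤ) (A : Finset ℤ) (F : Fin (j + 1) → X → ℝ),
  MeasurePreserving T μ μ → (∀ i, Measurable (F i)) → (∀ i x, |F i x| ≤ 1) →
  (∀ u ∈ A, ∀ u' ∈ A, |u - u'| ≤ (N : ℤ)) →
  |∑ u ∈ A, ∫ x, ∏ i, F i (zp T (u * b i) x) ∂μ| ^ (2 ^ j) ≤
    (2 * N + 1 : ℝ) ^ (2 ^ j - 1 - j) *
      ∑ t ∈ box j N, ((cub j A t).card : ℝ) * |vv μ T j (fun i => b 0 - b i.succ) (F 0) t|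

/-- VVP: the cube integral as an integral of a product. -/
def T_VVP : Prop := ∀ (X : Type) [MeasurableSpace X] (μ : Measure X) [IsProbabilityMeasure μ]
  (T : X ≃ᵐ X) (j : ℕ) (g : Fin j → ℤ) (F : X → ℝ) (t : Fin j → ℤ), MeasurePreserving T μ μ →
  vv μ T j g F t = ∫ x, ∏ ω : Finset (Fin j), F (zp T (∑ i ∈ ω, g i * t i) x) ∂μ

/-- VPD: the square of a cube integral is positive definite in every side. -/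
def T_VPD : Prop := ∀ (X : Type) [MeasurableSpace X] (μ : Measure X) [IsProbabilityMeasure μ]
  (T : X ≃ᵐ X) (j : ℕ) (g : Fin j → ℤ) (F : X → ℝ), MeasurePreserving T μ μ → Measurable F →
  (∀ x, |F x| ≤ 1) → (∀ (t : Fin j → ℤ) (i : Fin j),
    PDf fun s => (vv μ T j g F (Function.update t i s)) ^ 2) ∧
  ∀ t, (vv μ T j g F t) ^ 2 ≤ 1

/-- VFM: Fejer averages of positive definite sequences. -/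
def T_VFM : Prop := ∀ r : ℤ → ℝ, PDf r → (∀ n, |r n| ≤ 1) → ∀ H : ℕ, 0 < H →
  (0 ≤ ∑ t ∈ Finset.Icc (-(H : ℤ)) H, fj H t * r t) ∧
  (∀ K : ℕ, 0 < K → ∑ t ∈ Finset.Icc (-((H * K : ℕ) : ℤ)) (H * K : ℕ), fj (H * K) t * r t ≤
    ∑ t ∈ Finset.Icc (-(H : ℤ)) H, fj H t * r t) ∧
  ∀ N : ℕ, 0 < N → ∑ t ∈ Finset.Icc (-(N : ℤ)) N, fj N t * r t ≤
    ∑ t ∈ Finset.Icc (-(H : ℤ)) H, fj H t * r t + 4 * H / N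

/-- VWN: change of the windows. -/
def T_VWN : Prop := ∀ (j : ℕ) (v : (Fin j → ℤ) → ℝ),
  (∀ (t : Fin j → ℤ) (i : Fin j), PDf fun s => v (Function.update t i s)) →
  (∀ t, |v t| ≤ 1) → ∀ H : Fin j → ℕ, (∀ i, 0 < H i) →
  (∀ K : Fin j → ℕ, (∀ i, 0 < K i) → FJ j (fun i => H i * K i) v ≤ FJ j H v) ∧
  ∀ N : ℕ, 0 < N → FJ j (fun _ => N) v ≤ FJ j H v + ∑ i, 4 * (H i : ℝ) / N

/-- VIN: if `F` has a small projection to `Z_j`, then the average of the squares of the cube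
integrals of dimension `j` is small for suitable windows. -/
def T_VIN : Prop := ∀ (X : Type) [MeasurableSpace X] [StandardBorelSpace X] (μ : Measure X)
  [IsProbabilityMeasure μ] (T : X ≃ᵐ X), Ergodic T μ → ∀ (j : ℕ) (g : Fin j → ℤ) (ε : ℝ),
  (∀ i, g i ≠ 0) → 0 < ε → ∃ δ : ℝ, 0 < δ ∧ ∀ F : X → ℝ, Measurable F → (∀ x, |F x| ≤ 1) →
    ∫ x, ((μ[F | (tow μ T j).1]) x) ^ 2 ∂μ ≤ δ →
    ∃ H : Fin j → ℕ, (∀ i, 0 < H i) ∧ FJ j H (fun t => (vv μ T j g F t) ^ 2) ≤ ε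

/-- VAV: the averages of the squares of the cube integrals tend to zero. -/
def T_VAV : Prop := ∀ (X : Type) [MeasurableSpace X] [StandardBorelSpace X] (μ : Measure X)
  [IsProbabilityMeasure μ] (T : X ≃ᵐ X), Ergodic T μ → ∀ (j : ℕ) (g : Fin j → ℤ) (F : X → ℝ)
  (ε : ℝ), (∀ i, g i ≠ 0) → Measurable F → (∀ x, |F x| ≤ 1) →
  μ[F | (tow μ T j).1] =ᵐ[μ] 0 → 0 < ε → ∃ N₀ : ℕ, ∀ N : ℕ, N₀ ≤ N →
    ∑ t ∈ box j N, (vv μ T j g F t) ^ 2 ≤ ε * (N : ℝ) ^ j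

/-! ### Section 9.3 -/

open Pool.Agent.H24.MR (lam FinAddInv) in
open Pool.Agent.H24.T2 (rel Dec) in
/-- VEN: entropy decrement for all the residue classes. -/
def T_VEN : Prop := ∀ (Q k : ℕ) (β : Fin k → ℕ) (θ ρ : ℝ) (m₀ : ℕ), 0 < Q → 0 < θ → 0 < ρ →
  ∃ (M : Finset ℕ) (wt : ℕ → ℝ), (∀ m ∈ M, m₀ ≤ m ∧ 0 ≤ wt m) ∧ ∑ m ∈ M, wt m = 1 ∧
    ∀ ν : Set ℕ → ℝ, FinAddInv ν → ∀ Bad : Finset ℕ, Bad ⊆ M →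
      (∀ m ∈ Bad, ∃ u < Q, ¬ Dec β ν lam Q u θ m) → ∑ m ∈ Bad, wt m ≤ ρ

open Pool.Agent.H24.MR (lam FinAddInv) in
open Pool.Agent.H24.T2 (rel Dec) in
/-- VRL: the relation for the primes of a progression of a larger modulus. -/
def T_VRL : Prop := ∀ (Q W : ℕ) (η : ℝ), 0 < W → Q ∣ W → 0 < η → ∃ θ₀ : ℝ, 0 < θ₀ ∧ ∃ m₀ : ℕ,
  ∀ (k : ℕ) (β : Fin k → ℕ) (ν : Set ℕ → ℝ), FinAddInv ν → ∀ (m u : ℕ) (θ σ : ℝ), m₀ ≤ m →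
    0 ≤ θ → θ ≤ θ₀ → Dec β ν lam Q u θ m →
    (∀ p ∈ Pset Q m, ν {y | y ≡ u [MOD Q] ∧ p ∣ y ∧ rel β lam p y ≠ σ} ≤ η / (p * Q)) →
    ∑ p ∈ Pset W m, ν {y | y ≡ u [MOD Q] ∧ rel β lam p y ≠ σ} ≤
      11 * η / Q * (Pset W m).card

end Pool.Agent.H24.AG
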