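import Pool.Agent.H1.AG.ERC
import Pool.Agent.H1.AG.J2
import Pool.Agent.H11.AG.NXI
import Pool.Agent.H13.AG.ST
import Pool.Agent.H14.AG.PN
import Pool.Agent.H14.AG.VCT
import Pool.Agent.H17.AG.S3
import Pool.Agent.H18.AG.VDY
import Pool.Agent.H18.AG.VS2
import Pool.Agent.H18.AG.VSP
import Pool.Agent.H19.AG.AP
import Pool.Agent.H19.AG.CR
import Pool.Agent.H19.AG.DU
import Pool.Agent.H19.AG.EC
import Pool.Agent.H19.AG.PW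
import Pool.Agent.H21.AG.GI
import Pool.Agent.H21.AG.PNL
import Pool.Agent.H23.AG.GGP
import Pool.Agent.H23.AG.NCO
import Pool.Agent.H23.AG.PNT
import Pool.Agent.H23.AG.RPC
import Pool.Agent.H24.AG.CB1
import Pool.Agent.H24.AG.P3
import Pool.Agent.H26.AG.ME
import Pool.Agent.H29.AG.VIN
import Pool.Agent.H29.AG.VRA
import Pool.Agent.H3.GA.DW
import Pool.Agent.H3.GA.RA
import Pool.Agent.H30.AG.VBL
import Pool.Agent.H32.AG.S2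
import Pool.Agent.H33.AG.CHW
import Pool.Agent.H33.AG.CLM
import Pool.Agent.H33.AG.NXA
import Pool.Agent.H34.AG.SLV
import Pool.Agent.H34.AG.VCS
import Pool.Agent.H34.AG.VEC
import Pool.Agent.H34.AG.VRM
import Pool.Agent.H36.AG.END
import Pool.Agent.H36.AG.ERG
import Pool.Agent.H39.AG.TW
import Pool.Agent.H40.AG.CK
import Pool.Agent.H40.AG.DGJ
import Pool.Agent.H40.AG.QF
import Pool.Agent.H40.AG.QM
import Pool.Agent.H40.AG.QQA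
import Pool.Agent.H40.AG.QQJ
import Pool.Agent.H42.AG.CH
import Pool.Agent.H42.AG.NR
import Pool.Agent.H45.AG.MEM
import Pool.Agent.H45.AG.PXL
import Pool.Agent.H45.AG.PXT
import Pool.Agent.H47.AG.LMF
import Pool.Agent.H47.AG.VIR
import Pool.Agent.H47.AG.VMJ
import Pool.Agent.H47.AG.VPSB
import Pool.Agent.H47.AG.VPSI
import Pool.Agent.H47.VT.All
import Pool.Agent.H48.AG.J4
import Pool.Agent.H48.AG.S4
import Pool.Agent.H48.AG.VVP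
import Pool.Agent.H49.AG.NA
import Pool.Agent.H5.AG.VWN
import Pool.Agent.H51.AG.CHL
import Pool.Agent.H51.AG.DRM
import Pool.Agent.H51.AG.VVD
import Pool.Agent.H52.AG.VPR
import Pool.Agent.H52.AG.VVI
import Pool.Agent.H54.AG.AVP
import Pool.Agent.H54.AG.GP
import Pool.Agent.H54.AG.MN
import Pool.Agent.H55.AG.A0
import Pool.Agent.H55.AG.S1
import Pool.Agent.H55.AG.VHG
import Pool.Agent.H55.AG.VPD
import Pool.Agent.H56.AG.LV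
import Pool.Agent.H60.AG.A3
import Pool.Agent.H60.AG.JT
import Pool.Agent.H60.AG.LMD
import Pool.Agent.H60.AG.S3b
import Pool.Agent.H60.AG.UL
import Pool.Agent.H61.AG.J1
import Pool.Agent.H61.AG.PM
import Pool.Agent.H61.AG.VGE
import Pool.Agent.H67.AG.CB
import Pool.Agent.H68.AG.PXF
import Pool.Agent.H68.AG.QQT
import Pool.Agent.H68.AG.SW
import Pool.Agent.H69.AG.CL
import Pool.Agent.H69.AG.LE
import Pool.Agent.H69.AG.TRI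
import Pool.Agent.H70.AG.DR
import Pool.Agent.H73.GAP.K1
import Pool.Agent.H74.AG.S4b
import Pool.Agent.H75.AG.S5
import Pool.Agent.H75.AG.S6
import Pool.Agent.H77.AG.RS
import Pool.Agent.H78.AG.AI
import Pool.Agent.H78.AG.IF
import Pool.Agent.H78.AG.VRZ
import Pool.Agent.H81.AG.A2
import Pool.Agent.H81.AG.CHR
import Pool.Agent.H81.AG.FIN
import Pool.Agent.H81.AG.VAV
import Pool.Agent.H85.AG.PI
import Pool.Agent.H88.AG.A1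
import Pool.Agent.H88.AG.MC
import Pool.Agent.H9.AG.MSM
import Pool.Agent.H9.AG.VCU
import Pool.Agent.H90.AG.VVG
import Pool.Agent.H90.AG.VVQ
import Pool.Agent.H91.AG.J3
import Pool.Agent.H93.AG.CA
import Pool.Agent.H93.AG.HER
import Pool.Agent.H93.AG.PE
import Pool.Agent.H93.AG.V
import Pool.Agent.H95.AG.CB0
import Pool.Agent.H95.AG.CB2
import Pool.Agent.H96.AG.ER
import Pool.Agent.H98.AG.CV

/-!
ABSOLUTE GAP (`MP_c59857_nt`): assembly.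
-/

set_option autoImplicit false

namespace Pool.Agent.H24.AG.AllE

theorem c_UL : Pool.Agent.H67.AG.T_UL := Pool.Agent.H60.AG.pf_UL

theorem c_ER : Pool.Agent.H67.AG.T_ER := Pool.Agent.H96.AG.ER.pf_ER c_UL

theorem c_ERC : Pool.Agent.H67.AG.T_ERC := Pool.Agent.H1.AG.pf_ERC c_ER

theorem c_VRZ : Pool.Agent.H24.AG.T_VRZ := Pool.Agent.H78.AG.pf_VRZ Pool.Agent.H47.VT.All.sw

theorem c_VPSI : Pool.Agent.H24.AG.T_VPSI := Pool.Agent.H47.AG.pf_VPSI c_VRZ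

theorem c_VCS : Pool.Agent.H24.AG.T_VCS := Pool.Agent.H34.AG.pf_VCS

theorem c_VEC : Pool.Agent.H24.AG.T_VEC := Pool.Agent.H34.AG.pf_VEC c_VPSI c_VCS

theorem c_VDY : Pool.Agent.H24.AG.T_VDY := Pool.Agent.H18.AG.pf_VDY

theorem c_VCT : Pool.Agent.H24.AG.T_VCT := Pool.Agent.H14.AG.pf_VCT c_VEC c_VDY

theorem c_PN : Pool.Agent.H67.AG.T_PN := Pool.Agent.H14.AG.pf_PN c_VCT

theorem c_K1 : Pool.Agent.H67.AG.T_K1 := Pool.Agent.H73.GAP.pf_K1 c_UL c_PN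

theorem c_VRA : Pool.Agent.H24.AG.T_VRA := Pool.Agent.H29.AG.pf_VRA

theorem c_VVQ : Pool.Agent.H24.AG.T_VVQ := Pool.Agent.H90.AG.pf_VVQ c_VRA c_VEC c_VCT

theorem c_VPSB : Pool.Agent.H24.AG.T_VPSB := Pool.Agent.H47.AG.pf_VPSB c_VPSI

theorem c_VRM : Pool.Agent.H24.AG.T_VRM := Pool.Agent.H34.AG.pf_VRM

theorem c_VMJ : Pool.Agent.H24.AG.T_VMJ := Pool.Agent.H47.AG.MJ.pf_VMJ c_VPSB c_VRM c_VCS

theorem c_VGE : Pool.Agent.H24.AG.T_VGE := Pool.Agent.H61.AG.pf_VGE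

theorem c_VSP : Pool.Agent.H24.AG.T_VSP := Pool.Agent.H18.AG.pf_VSP

theorem c_VS2 : Pool.Agent.H24.AG.T_VS2 := Pool.Agent.H18.AG.pf_VS2 c_VSP

theorem c_VBL : Pool.Agent.H24.AG.T_VBL := Pool.Agent.H30.AG.pf_VBL c_VGE c_VSP

theorem c_VVG : Pool.Agent.H24.AG.T_VVG := Pool.Agent.H90.AG.VVG.pf_VVG c_VGE c_VS2 c_VBL

theorem c_VIR : Pool.Agent.H24.AG.T_VIR := Pool.Agent.H47.AG.pf_VIR c_VMJ c_VVG

theorem c_VPR : Pool.Agent.H24.AG.T_VPR := Pool.Agent.H52.AG.pf_VPR c_VIR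

theorem c_VVI : Pool.Agent.H24.AG.T_VVI := Pool.Agent.H52.AG.pf_VVI c_VPR c_VCT

theorem c_V : Pool.Agent.H67.AG.T_V := Pool.Agent.H93.AG.pf_V c_VVQ c_VVI

theorem c_VHG : Pool.Agent.H24.AG.T_VHG := Pool.Agent.H55.AG.HG.pf_VHG

theorem c_IF : Pool.Agent.H67.AG.T_IF := Pool.Agent.H78.AG.pf_IF

theorem c_ME : Pool.Agent.H67.AG.T_ME := Pool.Agent.H26.AG.pf_ME c_IF

theorem c_HER : Pool.Agent.H67.AG.T_HER := Pool.Agent.H93.AG.pf_HER c_VHG c_ME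

theorem c_AVP : Pool.Agent.H67.AG.T_AVP := Pool.Agent.H54.AG.pf_AVP c_V c_HER c_PN

theorem c_PI : Pool.Agent.H67.AG.T_PI := Pool.Agent.H85.AG.pf_PI c_AVP c_PN

theorem c_VVD : Pool.Agent.H24.AG.T_VVD := Pool.Agent.H51.AG.pf_VVD

theorem c_VCU : Pool.Agent.H24.AG.T_VCU := Pool.Agent.H9.AG.pf_VCU c_VCT

theorem c_EC : Pool.Agent.H67.AG.T_EC := Pool.Agent.H19.AG.pf_EC

theorem c_J1 : Pool.Agent.H67.AG.T_J1 := Pool.Agent.H61.AG.pf_J1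

theorem c_J3 : Pool.Agent.H67.AG.T_J3 := Pool.Agent.H91.AG.pf_J3 c_J1

theorem c_J2 : Pool.Agent.H67.AG.T_J2 := Pool.Agent.H1.AG.pf_J2 c_J1

theorem c_QM : Pool.Agent.H67.AG.T_QM := Pool.Agent.H40.AG.pf_QM c_J2 c_J3

theorem c_NXA : Pool.Agent.H67.AG.T_NXA := Pool.Agent.H33.AG.pf_NXA c_J2 c_QM

theorem c_J4 : Pool.Agent.H67.AG.T_J4 := Pool.Agent.H48.AG.pf_J4 c_J1

theorem c_CV : Pool.Agent.H67.AG.T_CV := Pool.Agent.H98.AG.pf_CV c_NXA c_QM c_J4 c_J2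

theorem c_ST : Pool.Agent.H67.AG.T_ST := Pool.Agent.H13.AG.pf_ST c_ME c_EC c_J1 c_J3 c_CV

theorem c_NXI : Pool.Agent.H67.AG.T_NXI := Pool.Agent.H11.AG.pf_NXI c_J4 c_J3 c_NXA

theorem c_TW : Pool.Agent.H67.AG.T_TW := Pool.Agent.H39.AG.pf_TW c_NXI

theorem c_VWN : Pool.Agent.H24.AG.T_VWN := Pool.Agent.H5.AG.pf_VWN

theorem c_VVP : Pool.Agent.H24.AG.T_VVP := Pool.Agent.H48.AG.pf_VVP

theorem c_VPD : Pool.Agent.H24.AG.T_VPD := Pool.Agent.H55.AG.PD.pf_VPD c_VVP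

theorem c_VIN : Pool.Agent.H24.AG.T_VIN := Pool.Agent.H29.AG.pf_VIN c_ST c_EC c_TW c_VWN c_VPD

theorem c_VAV : Pool.Agent.H24.AG.T_VAV := Pool.Agent.H81.AG.pf_VAV c_VIN c_VWN c_VPD

theorem c_P3 : Pool.Agent.H67.AG.T_P3 := Pool.Agent.H24.AG.pf_P3 c_VVD c_VCU c_VAV

theorem c_A0 : Pool.Agent.H67.AG.T_A0 := Pool.Agent.H55.AG.pf_A0 c_UL c_PN c_P3

theorem c_A1 : Pool.Agent.H67.AG.T_A1 := Pool.Agent.H88.AG.pf_A1 c_UL c_PN c_PI c_A0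

theorem c_NA : Pool.Agent.H67.AG.T_NA := Pool.Agent.H49.AG.pf_NA c_ME

theorem c_LV : Pool.Agent.H67.AG.T_LV := Pool.Agent.H67.AG.pf_LV

theorem c_NR : Pool.Agent.H67.AG.T_NR := Pool.Agent.H42.AG.pf_NR c_NA c_LV

theorem c_DU : Pool.Agent.H67.AG.T_DU := Pool.Agent.H19.AG.pf_DU c_NR

theorem c_LE : Pool.Agent.H67.AG.T_LE := Pool.Agent.H69.AG.pf_LE c_DU

theorem c_RA : Pool.Agent.H67.AG.T_RA := Pool.Agent.H3.GA.pf_RA c_LV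

theorem c_A2 : Pool.Agent.H67.AG.T_A2 := Pool.Agent.H81.AG.pf_A2 c_A1 c_LE c_RA c_LV

theorem c_A3 : Pool.Agent.H67.AG.T_A3 := Pool.Agent.H60.AG.pf_A3

theorem c_CA : Pool.Agent.H67.AG.T_CA := Pool.Agent.H93.AG.pf_CA c_A2 c_A3 c_J1 c_J2 c_J3 c_J4 c_NXI c_TW c_NR

theorem c_CK : Pool.Agent.H40.AG.T_CK := Pool.Agent.H40.AG.pf_CK c_DU c_J2 c_J3

theorem c_CLM : Pool.Agent.H67.AG.T_CLM := Pool.Agent.H33.AG.pf_CLM c_CK c_J1 c_J2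

theorem c_RS : Pool.Agent.H67.AG.T_RS := Pool.Agent.H77.AG.pf_RS c_LV

theorem c_CHW : Pool.Agent.H67.AG.T_CHW := Pool.Agent.H33.AG.pf_CHW c_UL c_LV c_RS c_LE c_J2 c_J3

theorem c_CHL : Pool.Agent.H67.AG.T_CHL := Pool.Agent.H51.AG.pf_CHL c_ME c_J2 c_J3

theorem c_GI : Pool.Agent.H67.AG.T_GI := Pool.Agent.H21.AG.pf_GI c_J3

theorem c_GP : Pool.Agent.H67.AG.T_GP := Pool.Agent.H54.AG.pf_GP c_J1 c_J4

theorem c_AP : Pool.Agent.H67.AG.T_AP := Pool.Agent.H19.AG.pf_AP c_NXA c_QM c_GI c_GP c_J2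

theorem c_CHR : Pool.Agent.H67.AG.T_CHR := Pool.Agent.H81.AG.pf_CHR c_AP c_NXI c_QM

theorem c_DW : Pool.Agent.H67.AG.T_DW := Pool.Agent.H3.GA.pf_DW c_UL c_PI

theorem c_DR : Pool.Agent.H67.AG.T_DR := Pool.Agent.H70.AG.DR.pf_DR c_DW c_LE c_RA c_LV

theorem c_TRI : Pool.Agent.H67.AG.T_TRI := Pool.Agent.H69.AG.pf_TRI

theorem c_DRM : Pool.Agent.H67.AG.T_DRM := Pool.Agent.H51.AG.pf_DRM c_DR c_TRI c_J2 c_J3

theorem c_PNL : Pool.Agent.H40.AG.T_PNL := Pool.Agent.H21.AG.pf_PNL c_J4 c_J1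

theorem c_QF : Pool.Agent.H40.AG.T_QF := Pool.Agent.H40.AG.pf_QF

theorem c_PXL : Pool.Agent.H40.AG.T_PXL := Pool.Agent.H45.AG.pf_PXL c_QF

theorem c_MEM : Pool.Agent.H40.AG.T_MEM := Pool.Agent.H45.AG.pf_MEM c_PNL c_PXL c_J4

theorem c_RPC : Pool.Agent.H40.AG.T_RPC := Pool.Agent.H23.AG.pf_RPC

theorem c_NCO : Pool.Agent.H40.AG.T_NCO := Pool.Agent.H23.AG.pf_NCO c_J4 c_J2

theorem c_DGJ : Pool.Agent.H40.AG.T_DGJ := Pool.Agent.H40.AG.pf_DGJ c_QF c_J1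

theorem c_GGP : Pool.Agent.H67.AG.T_GGP := Pool.Agent.H23.AG.pf_GGP c_DRM c_PNL c_PXL c_MEM c_RPC c_NCO c_DGJ

theorem c_SLV : Pool.Agent.H67.AG.T_SLV := Pool.Agent.H34.AG.pf_SLV

theorem c_S2 : Pool.Agent.H67.AG.T_S2 := Pool.Agent.H32.AG.pf_S2 c_UL c_PN

theorem c_PW : Pool.Agent.H67.AG.T_PW := Pool.Agent.H19.AG.pf_PW c_EC

theorem c_S3 : Pool.Agent.H67.AG.T_S3 := Pool.Agent.H17.AG.pf_S3 c_EC c_PW

theorem c_S3b : Pool.Agent.H67.AG.T_S3b := Pool.Agent.H60.AG.pf_S3b c_DW c_S2 c_S3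

theorem c_S4 : Pool.Agent.H67.AG.T_S4 := Pool.Agent.H48.AG.pf_S4

theorem c_S4b : Pool.Agent.H67.AG.T_S4b := Pool.Agent.H74.AG.pf_S4b c_UL c_EC

theorem c_S5 : Pool.Agent.H67.AG.T_S5 := Pool.Agent.H75.AG.pf_S5 c_ME

theorem c_S1 : Pool.Agent.H67.AG.T_S1 := Pool.Agent.H55.AG.S1.pf_S1 c_UL

theorem c_S6 : Pool.Agent.H67.AG.T_S6 := Pool.Agent.H75.AG.pf_S6 c_UL c_ME c_NA c_S1

theorem c_SW : Pool.Agent.H67.AG.T_SW := Pool.Agent.H68.AG.pf_SW c_S3b c_S4 c_S4b c_S5 c_S6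

theorem c_PNT : Pool.Agent.H40.AG.T_PNT := Pool.Agent.H23.AG.pf_PNT c_J3

theorem c_PXT : Pool.Agent.H40.AG.T_PXT := Pool.Agent.H45.AG.pf_PXT c_J3

theorem c_PXF : Pool.Agent.H40.AG.T_PXF := Pool.Agent.H68.AG.pf_PXF c_PXL c_PXT c_PNL

theorem c_CB0 : Pool.Agent.H67.AG.T_CB0 := Pool.Agent.H95.AG.pf_CB0 c_CLM c_CHW c_CHL c_CHR c_GGP c_SLV c_SW c_NA c_NXI c_J2 c_J3 c_PNL c_PNT c_PXL c_PXT c_PXF

theorem c_MN : Pool.Agent.H67.AG.T_MN := Pool.Agent.H54.AG.pf_MN c_NA c_NR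

theorem c_MSM : Pool.Agent.H67.AG.T_MSM := Pool.Agent.H9.AG.MS.pf_MSM c_SLV

theorem c_LMD : Pool.Agent.H67.AG.T_LMD := Pool.Agent.H60.AG.pf_LMD c_UL c_PN

theorem c_LMF : Pool.Agent.H67.AG.T_LMF := Pool.Agent.H47.AG.pf_LMF c_UL

theorem c_QQT : Pool.Agent.H40.AG.T_QQT := Pool.Agent.H68.AG.pf_QQT c_PXL c_PXT c_J2

theorem c_CB1 : Pool.Agent.H67.AG.T_CB1 := Pool.Agent.H24.AG.pf_CB1 c_NXI c_TRI c_MN c_MSM c_SLV c_LMD c_LMF c_PNL c_PXL c_PXT c_PXF c_MEM c_QQT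

theorem c_CH : Pool.Agent.H67.AG.T_CH := Pool.Agent.H42.AG.pf_CH c_ME

theorem c_CR : Pool.Agent.H67.AG.T_CR := Pool.Agent.H19.AG.pf_CR c_CH c_LV

theorem c_MC : Pool.Agent.H67.AG.T_MC := Pool.Agent.H88.AG.pf_MC c_CH c_CR

theorem c_FIN : Pool.Agent.H67.AG.T_FIN := Pool.Agent.H81.AG.pf_FIN c_TRI c_MC c_J2 c_J3

theorem c_QQJ : Pool.Agent.H40.AG.T_QQJ := Pool.Agent.H40.AG.pf_QQJ c_QF c_J1

theorem c_QQA : Pool.Agent.H40.AG.T_QQA := Pool.Agent.H40.AG.pf_QQA c_QF c_QQJ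

theorem c_CB2 : Pool.Agent.H67.AG.T_CB2 := Pool.Agent.H95.AG.pf_CB2 c_NXI c_FIN c_MEM c_PXL c_QQA c_QQT

theorem c_CB : Pool.Agent.H67.AG.T_CB := Pool.Agent.H67.AG.pf_CB c_CB0 c_CB1 c_CB2

theorem c_JT : Pool.Agent.H67.AG.T_JT := Pool.Agent.H60.AG.pf_JT c_J1 c_J2

theorem c_CL : Pool.Agent.H67.AG.T_CL := Pool.Agent.H69.AG.pf_CL

theorem c_PM : Pool.Agent.H67.AG.T_PM := Pool.Agent.H61.AG.pf_PM

theorem c_PE : Pool.Agent.H67.AG.T_PE := Pool.Agent.H93.AG.pf_PE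

theorem c_AI : Pool.Agent.H67.AG.T_AI := Pool.Agent.H78.AG.pf_AI c_ME

theorem c_END : Pool.Agent.H67.AG.T_END := Pool.Agent.H36.AG.pf_END c_DR c_TRI c_MN c_JT c_CL c_PM c_PE c_AI c_RS c_DU c_J2 c_J3

theorem c_ERG : Pool.Agent.H67.AG.T_ERG := Pool.Agent.H36.AG.pf_ERG c_ERC c_K1 c_CA c_CB c_END c_TW

theorem ctx_false (c : Pool.Agent.H67.AG.Ctx) : False := c_ERG.false c

end Pool.Agent.H24.AG.AllE
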