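import Pool.Agent.H67.AG.Defs
import Pool.Agent.H24.T2.Psk

/-!
ABSOLUTE GAP (`MP_c59857_nt`), section 3 of `H67_gap.md` (averages over primes): definitions.
-/

set_option autoImplicit false

open MeasureTheory ProbabilityTheory Filter Topology Finset
open scoped Nat

namespace Pool.Agent.H24.AG

open Pool.Agent.H24.T2 (Pset box cub)

/-! ### exponential sums -/

/-- `e(x)` -/
noncomputable def ee (x : ℝ) : ℂ := Complex.exp (2 * Real.pi * Complex.I * (x : ℂ))

/-- the sum of `Λ(n) f(n)` over `n ≤ Y` -/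
noncomputable def ps (f : ℕ → ℂ) (Y : ℕ) : ℂ :=
  ∑ n ∈ Finset.Icc 1 Y, ((ArithmeticFunction.vonMangoldt n : ℝ) : ℂ) * f n

/-- the distance to the nearest integer -/
noncomputable def dn (x : ℝ) : ℝ := |x - round x|

open Classical in
/-- `min (M, 1 / (2 ‖x‖))` -/
noncomputable def mn (M x : ℝ) : ℝ := if 2 * M * dn x ≤ 1 then M else 1 / (2 * dn x)

/-- the primes in `(2 ^ m, 2 ^ (m + 1)]` which are `≡ b (mod W)` -/
def Pc (W b m : ℕ) : Finset ℕ :=
  (Finset.Ioc (2 ^ m) (2 ^ (m + 1))).filter (fun p => p.Prime ∧ p ≡ b [MOD W])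

/-- real positive definite sequences -/
def PDf (r : ℤ → ℝ) : Prop := (∀ n, r (-n) = r n) ∧
  ∀ (s : Finset ℤ) (c : ℤ → ℝ), 0 ≤ ∑ i ∈ s, ∑ j ∈ s, c i * c j * r (i - j)

/-! ### integer iterates -/

section zp

variable {X : Type} [MeasurableSpace X]

/-- the integer iterates -/
def zp (T : X ≃ᵐ X) (n : ℤ) (x : X) : X := ((T.toEquiv : Equiv.Perm X) ^ n) x

theorem zp_zero (T : X ≃ᵐ X) (x : X) : zp T 0 x = x := by
  rw [zp, zpow_zero]; rfl

theorem zp_add (T : X ≃ᵐ X) (m n : ℤ) (x : X) : zp T (m + n) x = zp T m (zp T n x) := by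
  unfold zp
  rw [zpow_add]; rfl

theorem zp_natCast (T : X ≃ᵐ X) (n : ℕ) (x : X) : zp T (n : ℤ) x = T^[n] x := by
  unfold zp
  rw [zpow_natCast]
  induction n generalizing x with
  | zero => rfl
  | succ n ih =>
    rw [pow_succ, Function.iterate_succ_apply, ← ih]
    rfl

theorem zp_one (T : X ≃ᵐ X) (x : X) : zp T 1 x = T x := by
  have h := zp_natCast T 1 x
  exact h

theorem zp_neg_natCast (T : X ≃ᵐ X) (n : ℕ) (x : X) : zp T (-(n : ℤ)) x = T.symm^[n] x := by
  induction n generalizing x with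
  | zero => simp [zp_zero]
  | succ n ih =>
    have h : -((n + 1 : ℕ) : ℤ) = -(n : ℤ) + (-1) := by push_cast; ring
    rw [h, zp_add, Function.iterate_succ_apply, ← ih]
    congr 1

theorem measurable_zp (T : X ≃ᵐ X) (n : ℤ) : Measurable (zp T n) := by
  rcases Int.eq_nat_or_neg n with ⟨m, rfl | rfl⟩
  · have h : zp T (m : ℤ) = T^[m] := funext fun x => zp_natCast T m x
    rw [h]; exact T.measurable.iterate m
  · have h : zp T (-(m : ℤ)) = T.symm^[m] := funext fun x => zp_neg_natCast T m x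
    rw [h]; exact T.symm.measurable.iterate m

theorem mp_zp {μ : Measure X} {T : X ≃ᵐ X} (hT : MeasurePreserving T μ μ) (n : ℤ) :
    MeasurePreserving (zp T n) μ μ := by
  rcases Int.eq_nat_or_neg n with ⟨m, rfl | rfl⟩
  · have h : zp T (m : ℤ) = T^[m] := funext fun x => zp_natCast T m x
    rw [h]; exact hT.iterate m
  · have h : zp T (-(m : ℤ)) = T.symm^[m] := funext fun x => zp_neg_natCast T m x
    rw [h]; exact (hT.symm T).iterate m

theorem zp_inj (T : X ≃ᵐ X) (n : ℤ) (x : X) : zp T n (zp T (-n) x) = x := by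
  rw [← zp_add, add_neg_cancel, zp_zero]

end zp

/-! ### cube integrals -/

section vv

variable {X : Type} [MeasurableSpace X]

/-- the integral of the product of `F` over the cube with the sides `g i * t i` -/
noncomputable def vv (μ : Measure X) (T : X ≃ᵐ X) :
    (j : ℕ) → (Fin j → ℤ) → (X → ℝ) → (Fin j → ℤ) → ℝ
  | 0, _, F, _ => ∫ x, F x ∂μ
  | j + 1, g, F, t =>
    vv μ T j (Fin.tail g) (fun x => F x * F (zp T (g 0 * t 0) x)) (Fin.tail t)

theorem vv_zero (μ : Measure X) (T : X ≃ᵐ X) (g : Fin 0 → ℤ) (F : X → ℝ) (t : Fin 0 → ℤ) :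
    vv μ T 0 g F t = ∫ x, F x ∂μ := by rw [vv]

theorem vv_succ (μ : Measure X) (T : X ≃ᵐ X) (j : ℕ) (g : Fin (j + 1) → ℤ) (F : X → ℝ)
    (t : Fin (j + 1) → ℤ) : vv μ T (j + 1) g F t =
      vv μ T j (Fin.tail g) (fun x => F x * F (zp T (g 0 * t 0) x)) (Fin.tail t) := by rw [vv]

end vv

/-- the Fejer weights of length `H` -/
noncomputable def fj (H : ℕ) (t : ℤ) : ℝ := max 0 (1 - |(t : ℝ)| / H) / H

/-- the average of `v` over the sides with Fejer weights of lengths `H i` -/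
noncomputable def FJ (j : ℕ) (H : Fin j → ℕ) (v : (Fin j → ℤ) → ℝ) : ℝ :=
  ∑ t ∈ Fintype.piFinset (fun i => Finset.Icc (-(H i : ℤ)) (H i)), (∏ i, fj (H i) (t i)) * v t

end Pool.Agent.H24.AG
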